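import Pool.Agent.R904.RW.Main

/-!
# Beilinson's conjecture in weight `dim + 1`: higher weights and rational varieties

Beilinson's conjecture on the regulators of the integral motivic cohomology in weight `dim X + 1`
for all `X` is equivalent to its extension to all weights `> dim X`. For rational varieties it is
equivalent to the bijectivity of the regulators in all weights `> dim X + 1` for all varieties. Given
this, or given the conjecture in smaller dimensions, it is a birational invariant.
-/

set_option autoImplicit false

open Pool.Agent.H914 Pool.Agent.H914.VarClass Pool.Agent.H914.VarClass.Obj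
open Pool.Agent.R904.RW

universe u v w

namespace Pool.Agent.Results.MP_a09a03_nt.HigherWeights

/-- Let `S` be a class of smooth projective varieties over `ℚ` which is closed under products with the
projective line `L`, with integral motivic cohomology, real Deligne cohomology and regulators `R`.

1. Q1 holds for all `X` in `S` if and only if Q1 holds for all `X` in `S` and moreover the regulators
   in the weights `q > dim X + 1` are isomorphisms in all degrees `p < 2 q`.
2. Q1 holds for all `X` in `S` if it holds for those of large dimension.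
3. Let `T` be a class of rational varieties in `S`, as in `IsRatClass`. Q1 holds for all `X` in `T` if
   and only if the regulators in the weights `q > dim X + 1` are isomorphisms in all degrees `p < 2 q`
   for all `X` in `S`. If `S₀` meets all birational classes in `S`, then Q1 holds for all `X` in `S`
   if and only if it holds for those in `T` and in `S₀`.
4. If Q1 holds for all varieties in `S` of dimension `< n`, it is a birational invariant of the
   varieties of dimension `n`. -/
theorem result {k : Type u} [Field k] {𝒱 : VarClass k} (R : RegData.{u, v, w} 𝒱) {L : 𝒱.Obj}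
    {S : Set 𝒱.Obj} (hR : IsRegTheory R L S) :
    ((∀ X ∈ S, Q1 R X) ↔ ∀ X ∈ S, Q1 R X ∧ HighWeights R X) ∧
    (∀ N : ℕ, (∀ X ∈ S, Q1 R X) ↔ ∀ X ∈ S, N ≤ X.dim → Q1 R X) ∧
    (∀ T Q : Set 𝒱.Obj, IsRatClass R L S T Q →
      ((∀ X ∈ T, Q1 R X) ↔ ∀ X ∈ S, HighWeights R X) ∧
      ∀ S₀ ⊆ S, (∀ X ∈ S, ∃ X₀ ∈ S₀, Chain R S {X₀} X) →
        ((∀ X ∈ S, Q1 R X) ↔ (∀ X ∈ T, Q1 R X) ∧ ∀ X ∈ S₀, Q1 R X)) ∧
    (∀ X₀ X : 𝒱.Obj, (∀ Z ∈ S, Z.dim < X₀.dim → Q1 R Z) → Chain R S {X₀} X →
      (Q1 R X ↔ Q1 R X₀)) :=
  ⟨all_iff_high hR, all_iff_large hR,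
    fun _ _ h => ⟨rational_iff hR h.sub h.closed h.blowUp h.known h.chain,
      fun _ h0 h1 => all_iff_classes hR h.sub h.closed h.blowUp h.known h.chain h0 h1⟩,
    fun _ _ h hc => chain_iff_of_lower hR h hc⟩

end Pool.Agent.Results.MP_a09a03_nt.HigherWeights
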