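import Pool.Agent.R909.RegB

/-!
# Beilinson's conjecture in weight `dim + 1` and Hilbert squares

Q1 for the Hilbert square `X^[2]` of one variety `X` implies Q1 for `X`; Q1 for the iterated Hilbert
squares of `X` implies that the regulators of `X` are isomorphisms in all weights `> dim X + 1`. Q1
for a class of varieties closed under Hilbert squares is equivalent to Q1 for their Hilbert squares,
and to the bijectivity in higher weights together with Q1 for the symmetric parts of the squares.
-/

set_option autoImplicit false

open Pool.Agent.H914 Pool.Agent.H914.VarClass Pool.Agent.H914.VarClass.Obj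
open Pool.Agent.R904.RW Pool.Agent.R909.Reg

universe u v w

namespace Pool.Agent.Results.MP_a09a03_nt.HilbertSquares

/-- Let `S` be a class of connected smooth projective varieties over `ℚ` of positive dimension which
is closed under Hilbert squares `hil X = X^[2]`, with integral motivic cohomology, real Deligne
cohomology and regulators `R`. Here `Y X` is the square of `X` and `P X` its field of constants.

1. For `X` in `S`, Q1 for `X^[2]` holds if and only if it holds for the symmetric part of the
   cohomology of `X × X` and the regulators of `X` are isomorphisms in the weights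
   `dim X + 2, ..., 2 dim X` (in all degrees less than twice the weight); and Q1 for `X × X` holds
   if and only if it holds for the symmetric part and the regulators are isomorphisms on the
   antisymmetric part in weight `2 dim X + 1`.
2. For `X` in `S`, Q1 for `X^[2]` implies Q1 for `X`; and Q1 for all iterated Hilbert squares of `X`
   implies that the regulators of `X` are isomorphisms in all weights `> dim X + 1`.
3. Q1 holds for all `X` in `S` if and only if it holds for the Hilbert squares of all `X` in `S`, and
   if and only if for all `X` in `S` it holds for the symmetric part of the cohomology of `X × X` and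
   the regulators of `X` are isomorphisms in all weights `> dim X + 1`. -/
theorem result {k : Type u} [Field k] {𝒱 : VarClass k} (R : RegData.{u, v, w} 𝒱) {S : Set 𝒱.Obj}
    (hil Y P : 𝒱.Obj → 𝒱.Obj) (A : ∀ X ∈ S, SquareData R X (Y X) (P X))
    (hdim : ∀ X ∈ S, 1 ≤ X.dim)
    (htop : ∀ X ∈ S, ∀ p q : ℤ, 2 * (X.dim : ℤ) + 1 < p → Subsingleton (R.D X p q))
    (hhil : ∀ X (hX : X ∈ S), hil X ∈ S ∧ IsHilb (A X hX) (hil X)) :
    (∀ X (hX : X ∈ S),
      (Q1 R (hil X) ↔ SymQ1 (A X hX) ∧
        ∀ q : ℤ, (X.dim : ℤ) + 1 < q → q ≤ 2 * X.dim → ∀ p < 2 * q, Iso (R.reg X p q)) ∧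
      (Q1 R (Y X) ↔ SymQ1 (A X hX) ∧ AntiQ1 (A X hX))) ∧
    (∀ X ∈ S, (Q1 R (hil X) → Q1 R X) ∧ ((∀ m : ℕ, Q1 R (hil^[m] X)) → HighWeights R X)) ∧
    ((∀ X ∈ S, Q1 R X) ↔ ∀ X ∈ S, Q1 R (hil X)) ∧
    ((∀ X ∈ S, Q1 R X) ↔ ∀ X (hX : X ∈ S), SymQ1 (A X hX) ∧ HighWeights R X) :=
  ⟨fun X hX => ⟨q1_hilb (hhil X hX).2 (hdim X hX) (htop X hX), q1_square (A X hX)⟩,
    fun _ hX => ⟨q1_of_hilb hdim htop hhil hX, highWeights_of_iter hdim htop hhil hX⟩,
    all_iff_hilb hdim htop hhil, all_iff_sym hdim htop hhil⟩

end Pool.Agent.Results.MP_a09a03_nt.HilbertSquares
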