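import Pool.Agent.R387.RS.Fin
set_option autoImplicit false

/-!
Beilinson's conjecture on regulators for `K_2` of curves (`X` of dimension 1, weight 2, `i = 1`):
surjectivity of the regulator on the *integral* classes at arbitrarily many places simultaneously,
for the hyperelliptic curves `y² = D(x)` over number fields `K` with a solution `P² - D Q² = 1`
of the Pell equation such that `2 P` has integral coefficients and a unit as leading coefficient
(for example, `z + 1/z = F(x)` for an arbitrary monic polynomial `F` with integral coefficients,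
`P = F / 2`). For every finite list of complex embeddings of `K` (repetitions are allowed) there is
a number field `L ⊇ K` with embeddings that extend them such that the regulators of the unramified
classes in `K_2(L(C)) ⊗ ℚ` span the dual of the space of all chosen loops at all these places of
`L` together, up to codimension the number of the real critical values of `P` outside of `[-1, 1]`.
In particular the rank of the integral `K_2` of the curve over number fields `L` is unbounded.
-/

namespace Pool.Agent.Results.MP_a09a03_nt.ManyPlaces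

open Polynomial

open Pool.Agent.TH826.MK (KQ symb Torus Unramified)

open Pool.Agent.Y94.R

section defs

/-- The number of the roots `β` of `r` in `ℂ` (with multiplicities, over the embedding `s`) such
that `P(β)` is real and `|P(β)| > 1`. -/
noncomputable def realCrit {K : Type*} [Field K] (s : K →+* ℂ) (P r : K[X]) : ℕ := by
  classical
  exact Multiset.card ((r.map s).roots.filter fun β =>
    ((P.map s).eval β).im = 0 ∧ 1 < |((P.map s).eval β).re|)

/-- `γ_1, ..., γ_m` are admissible loops in the complex points of the curve `y² = D(x)` over the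
embedding `s`: their period vectors `(∫ x^j dx / y)_{j < g}` are linearly independent over `ℝ`, they
do not meet the zeros of `r(x)`, and there is a number `c` in `(-1, 1)` such that they do not meet
the zeros of `P(x) - c`. -/
structure Admissible {K : Type*} [Field K] (s : K →+* ℂ) (g : ℕ) (D P r : K[X]) {m : ℕ}
    (γ : Fin m → Lp (D.map s)) : Prop where
  periods : LinearIndependent ℝ fun (l : Fin m) (j : Fin g) =>
    ∫ t in (0 : ℝ)..1, (γ l).x t ^ (j : ℕ) * deriv (γ l).x t / (γ l).y t
  off : ∀ l t, (r.map s).eval ((γ l).x t) ≠ 0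
  gap : ∃ c : ℝ, |c| < 1 ∧ ∀ l t, (P.map s).eval ((γ l).x t) ≠ c

/-- The symbols `{P(x) + Q(x) y, (x - b_j) / (x - b_0)}` are unramified at all discrete valuations
of the function field of the curve `y² = D(x)` over `L`. -/
def UnramifiedSymbols.{u, v} {L : Type u} [Field L] {D P Q : L[X]} {R : ℕ} (b : Fin (R + 1) → L)
    (h : P ^ 2 - D * Q ^ 2 = 1) : Prop :=
  ∀ (M : Type v) [Field M] [Algebra (HRing D) M] [IsFractionRing (HRing D) M],
    ∃ f : HOpen D b →+* M, (∀ a : HRing D, f (toH D b a) = algebraMap (HRing D) M a) ∧
      ∀ j : Fin R, KQ.map 2 f (symb (hent b h j.succ 0)) ∈ Unramified M 2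

/-- The torus `Γ` of dimension `1` is the loop `γ` in the complex points of the open part
`∏_j (x - b_j) ≠ 0` of the curve `y² = D(x)` over the embedding `t` of `L`. -/
def IsLoop {L : Type*} [Field L] (t : L →+* ℂ) {D : L[X]} {D' : ℂ[X]} {R : ℕ}
    {b : Fin (R + 1) → L} (Γ : Torus (HOpen D b) 1) (γ : Lp D') : Prop :=
  ∀ θ, (∀ c : L, Γ.e θ (hcst D b c) = t c) ∧ Γ.e θ (toH D b (hpol D X)) = γ.x (θ 0) ∧
    Γ.e θ (toH D b (hy D)) = γ.y (θ 0)

end defs

/-- Let `K` be a number field, `D` a squarefree polynomial of degree `2 g + 2` over `K`, and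
`P² - D Q² = 1`, where `P` is not constant, `2 P` has integral coefficients and the inverse of its
leading coefficient is integral, too; let `P' = r Q`. For `1 ≤ i ≤ N` let `s_i` be a complex
embedding of `K` (repetitions are allowed), let `γ_{i,1}, ..., γ_{i,m_i}` be admissible loops in the
complex points of the curve `C : y² = D(x)` over `s_i` (at most `2 g`), and let `n_i` be the
difference of `m_i` and the number of the critical points of `P` (over `s_i`, the zeros of `r`) with
real critical value outside of `[-1, 1]`.

There are a number field `L`, a homomorphism `K → L`, complex embeddings `t_i` of `L` that extend the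
`s_i`, and `n_1 + ... + n_N + 1` algebraic integers `b_j` of `L`, such that all `2 P(b_j)` are sums of
a root of unity and its inverse; the coordinate ring of `C` over `L` is a domain; the symbols
`{P(x) + Q(x) y, (x - b_j) / (x - b_0)}`, `1 ≤ j ≤ n_1 + ... + n_N`, are unramified at all discrete
valuations of the function field of `C` over `L`; and the vectors of their regulators on all the
loops `γ_{i,l}` over the places `t_i`, `1 ≤ i ≤ N`, `1 ≤ l ≤ m_i`, are linearly independent over
`ℝ`. -/
theorem result.{u, v} (K : Type u) [Field K] [NumberField K] (g : ℕ) (D P Q r : K[X])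
    (hD : Squarefree D) (hdeg : D.natDegree = 2 * g + 2) (hPQ : P ^ 2 - D * Q ^ 2 = 1)
    (hP : 0 < P.natDegree) (hr : derivative P = r * Q)
    (hint : ∀ i, IsIntegral ℤ (2 * P.coeff i)) (hlead : IsIntegral ℤ (2 * P.leadingCoeff)⁻¹)
    (N : ℕ) (s : Fin N → K →+* ℂ) (m n : Fin N → ℕ) (γ : ∀ i, Fin (m i) → Lp (D.map (s i)))
    (hγ : ∀ i, Admissible (s i) g D P r (γ i)) (hn : ∀ i, n i + realCrit (s i) P r = m i) :
    ∃ (L : Type u) (_ : Field L) (_ : NumberField L) (_ : Algebra K L) (t : Fin N → L →+* ℂ)
      (b : Fin (∑ i, n i + 1) → L)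
      (hL : (P.map (algebraMap K L)) ^ 2 -
        (D.map (algebraMap K L)) * (Q.map (algebraMap K L)) ^ 2 = 1),
      (∀ i, (t i).comp (algebraMap K L) = s i) ∧
      (∀ j, IsIntegral ℤ (b j) ∧ ∃ k : ℕ, k ≠ 0 ∧ ∀ σ : L →+* ℂ, ∃ ζ : ℂ, ζ ^ k = 1 ∧
        σ (2 * (P.map (algebraMap K L)).eval (b j)) = ζ + ζ⁻¹) ∧
      IsDomain (HRing (D.map (algebraMap K L))) ∧
      UnramifiedSymbols.{u, v} b hL ∧
      ∃ Γ : ∀ i, Fin (m i) → Torus (HOpen (D.map (algebraMap K L)) b) 1,
        (∀ i l, IsLoop (t i) (Γ i l) (γ i l)) ∧
        LinearIndependent ℝ fun (j : Fin (∑ i, n i)) (x : Σ i, Fin (m i)) =>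
          (Γ x.1 x.2).reg (symb (hent b hL j.succ 0)) := by
  classical
  let A : Pool.Agent.R387.RS.Dt K := ⟨D, P, Q, r, N, s, m, γ, n⟩
  have hch : CharZero K := inferInstance
  have hpell : ∀ i, Pell (D.map (s i)) (P.map (s i)) (Q.map (s i)) (r.map (s i)) := fun i =>
    { eq := by
        have h1 := congrArg (Polynomial.map (s i)) hPQ
        simpa using h1
      der := by
        have h1 := congrArg (Polynomial.map (s i)) hr
        rwa [Polynomial.map_mul, ← Polynomial.derivative_map] at h1
      deg := by
        rw [natDegree_map]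
        exact hP }
  have hA : A.Ok :=
    { sq := hD
      pell := hPQ
      der := hr
      deg := hP
      off := fun i l β hβ t ht => (hγ i).off l t (by rw [sub_eq_zero.1 ht]; exact hβ)
      tt := fun i => by
        obtain ⟨c, hc, h1⟩ := (hγ i).gap
        exact ⟨c, hc, fun b hb l t ht => h1 l t (by rw [sub_eq_zero.1 ht]; exact hb)⟩
      ind := fun i c hc => by
        have h1 : (r.map (s i)).natDegree = g :=
          (hpell i).natDegree_r (by rw [natDegree_map, hdeg])
        obtain ⟨j, hj, h2⟩ := periods (γ i) (hγ i).periods c hc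
        exact ⟨j, by rw [show A.r = r from rfl, show A.s i = s i from rfl, h1]; exact hj, h2⟩
      rank := fun i => by
        rw [← show _ = A.m i from hn i]
        unfold realCrit
        congr! }
  obtain ⟨L, _, _, _, t, b, hL, h1, h2, h3, Γ, h4, h5⟩ := Pool.Agent.R387.RS.Dt.final hA hint hlead
  have hDL : Squarefree (D.map (algebraMap K L)) := by
    have h6 : D.Separable := PerfectField.separable_iff_squarefree.2 hD
    exact (h6.map (f := algebraMap K L)).squarefree
  have hdom : IsDomain (HRing (D.map (algebraMap K L))) :=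
    isDomain_HRing hDL (by rw [natDegree_map]; omega)
  refine ⟨L, inferInstance, inferInstance, inferInstance, t, b, hL, h1,
    fun j => ⟨h2 j, h3 j⟩, hdom, ?_, Γ, fun i l θ => h4 i l θ, h5⟩
  intro M _ _ _
  have hinj : Function.Injective (algebraMap (HRing (D.map (algebraMap K L))) M) :=
    IsFractionRing.injective _ _
  have hne : algebraMap (HRing (D.map (algebraMap K L))) M (hDel _ b) ≠ 0 := by
    rw [Ne, map_eq_zero_iff _ hinj]
    exact hDel_ne_zero b
  refine ⟨liftH (algebraMap _ M) hne, fun a => liftH_toH _ _ _, fun j => ?_⟩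
  have hσ : Nonempty (L →+* ℂ) := inferInstance
  refine hsymb_unramified hL b _ hσ.some (fun i => ?_) h2 j.succ 0 fun k => ?_
  · rw [coeff_map]
    have h6 := (hint i).map (algebraMap K L).toIntAlgHom
    have h7 : (algebraMap K L).toIntAlgHom (2 * P.coeff i) = 2 * algebraMap K L (P.coeff i) := by
      show algebraMap K L (2 * P.coeff i) = _
      rw [map_mul, map_ofNat]
    rw [← h7]
    exact h6
  · obtain ⟨q, hq, h6⟩ := h3 k
    obtain ⟨ζ, hζ, h7⟩ := h6 hσ.some
    exact ⟨ζ, q, hq, hζ, h7⟩

end Pool.Agent.Results.MP_a09a03_nt.ManyPlaces
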