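import Mathlib
import Pool.Agent.R387.BZ.Main

/-!
# Beilinson's conjecture in weight `dim + 1` and zero-cycles

Up to the regulators in the higher weights `q > dim + 1`, Beilinson's conjecture Q1 for `X` depends on
the zero-cycles of `X` only. In particular, Q1 holds for all varieties whose zero-cycles are supported
in dimension `≤ r` if and only if it holds for the rational varieties and for the varieties of
dimension `≤ r`; and in a given dimension `n` it holds for all varieties whose zero-cycles are
supported in dimension `< n` (for example for all uniruled varieties) if and only if it holds for the
products `Y × P^1`.

The proof: a correspondence from `X` to `Y` of degree zero which lies over a closed subset `A ≠ X` of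
`X` acts on the cohomology of `X` in weight `dim X + 1` through the restriction to the
desingularization of `A`, whose dimension is smaller, so that the weight `dim X + 1` is a higher
weight for it. Now use the decomposition of the diagonal of Bloch and Srinivas.
-/

set_option autoImplicit false

open Pool.Agent.R387.BZ

namespace Pool.Agent.Results.MP_a09a03_nt.ZeroCycles

/-- Let `S` be a class of smooth proper varieties over `ℚ` (for example all smooth projective
varieties), with cycles modulo rational equivalence `C`, and with integral motivic cohomology, real
Deligne cohomology and regulators `R` which have the formal properties `IsRegTheory`.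

1. If `X` is a direct summand of the varieties `Y t`, then Q1 for the `Y t` implies Q1 for `X`.
2. Suppose that the zero-cycles of `X` come from the varieties `Y t` (of any dimensions), and that the
   regulators in all weights `q > dim W + 1` are isomorphisms for the varieties `W` of dimension
   `< dim X`. Then Q1 for the `Y t` implies Q1 for `X`; and if the regulators in all weights
   `> dim + 1` are isomorphisms for the `Y t`, so they are for `X`.
3. Let `L X = X × P^1`. Let `G` be a set of varieties of dimension `m + 1` (for example, the empty
   set). Q1 holds for all `X` of dimension `m + 1` whose zero-cycles come from varieties of dimension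
   `≤ m` and members of `G` if and only if it holds for the products `Y × P^1` with `dim Y = m` and
   for the members of `G`.
4. Let `T` be the class of rational varieties. For every `r`, Q1 holds for all `X` whose zero-cycles
   are supported in dimension `≤ r` if and only if it holds for the rational varieties and for the
   varieties of dimension `≤ r`. For every set `G` of varieties, Q1 holds for the rational varieties
   and all `X` whose zero-cycles come from members of `G` if and only if it holds for the rational
   varieties and for the members of `G`. If Q1 holds in dimension `0`, it holds for the rational
   varieties if and only if the regulators in the weights `q > dim X + 1` are isomorphisms for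
   all `X`. -/
theorem result {S : VarClass} (C : CycleData S) (R : RegData S) (h : IsRegTheory C R) :
    (∀ (X : S.Obj) (ι : Type) [Fintype ι] (Y : ι → S.Obj), SummandOf C X Y →
      (∀ t, Q1 R (Y t)) → Q1 R X) ∧
    Governed C R ∧
    (∀ L, IsLine C R L → ∀ m G, (∀ Y, G Y → Y.dim = m + 1) → InDimension C R L m G) ∧
    (∀ T, IsRationalClass C R T → (∀ r, ForSupport C R T r) ∧ (∀ G, ForClass C R T G) ∧
      ((∀ X : S.Obj, X.dim = 0 → Q1 R X) →
        ((∀ B, T B → Q1 R B) ↔ ∀ X, HighWeights R X))) :=
  ⟨fun _ _ _ _ hX hY => q1_of_summand h hX hY,
    fun _ _ _ _ hX hW => ⟨fun hY => q1_of_zeroCycles h hX
      (fun W e he hWe i => hW W (by omega) e he i) hY, high_of_zeroCycles h hX hW⟩,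
    fun _ hL m G hG => dimension_iff h hL m G hG,
    fun _ hT => ⟨support_iff h hT, class_iff h hT, rational_iff_high h hT⟩⟩

end Pool.Agent.Results.MP_a09a03_nt.ZeroCycles
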